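import Pool.Agent.V11237.TurnCost

/-!
The value of the linear search problem with turning cost `d` is below `9 + 2 d` for every `d > 0`.
-/

set_option autoImplicit false

open Pool.Agent.V11237.TurnCost

/-- For every `d > 0` the value `Vbar d` is at most `5 + d + 2 √(4 + 2 d)`, and this is smaller than
`9 + 2 d`. -/
theorem Pool.Agent.Results.MP_5c5fd6_lc.BelowNine.result (d : ℝ) (hd : 0 < d) :
    Vbar d ≤ ENNReal.ofReal (5 + d + 2 * √(4 + 2 * d)) ∧
      Vbar d < ENNReal.ofReal (9 + 2 * d) :=
  ⟨Vbar_le hd, Vbar_lt hd⟩
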